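import Pool.Agent.T2h14.FD.Stm

/-!
Task CMP of the project FD: the completion of `K ⊗ A`.
-/

set_option autoImplicit false

open MvPowerSeries IsLocalRing
open scoped TensorProduct

namespace Pool.Agent.T2h14.FD.CMPproof

section funct

variable {k K A : Type} [Field k] [Field K] [Algebra k K] [CommRing A] [Algebra k A]

/-- the map `φ ⊗ id` -/
noncomputable def phiA (φ : K →ₗ[k] k) : K ⊗[k] A →ₗ[k] A :=
  (TensorProduct.lid k A).toLinearMap ∘ₗ φ.rTensor A

lemma phiA_tmul (φ : K →ₗ[k] k) (c : K) (a : A) : phiA φ (c ⊗ₜ[k] a) = φ c • a := by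
  simp [phiA]

lemma phiA_mul (φ : K →ₗ[k] k) (c : K) (a : A) (b : K ⊗[k] A) :
    phiA φ ((c ⊗ₜ[k] a) * b) = a * phiA (φ ∘ₗ LinearMap.mulLeft k c) b := by
  induction b using TensorProduct.induction_on with
  | zero => simp
  | tmul x y => simp [phiA_tmul, Algebra.TensorProduct.tmul_mul_tmul]
  | add x y hx hy => rw [mul_add, map_add, map_add, hx, hy, mul_add]

lemma phiA_mem (Q : Ideal A) (b : K ⊗[k] A)
    (hb : b ∈ Q.map (Algebra.TensorProduct.includeRight : A →ₐ[k] K ⊗[k] A)) :
    ∀ φ : K →ₗ[k] k, phiA φ b ∈ Q := by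
  unfold Ideal.map at hb
  refine Submodule.span_induction (p := fun b _ => ∀ φ : K →ₗ[k] k, phiA φ b ∈ Q)
    ?_ ?_ ?_ ?_ hb
  · rintro x ⟨a, ha, rfl⟩ φ
    have : (Algebra.TensorProduct.includeRight : A →ₐ[k] K ⊗[k] A) a = (1 : K) ⊗ₜ[k] a := rfl
    rw [this, phiA_tmul, Algebra.smul_def]
    exact Q.mul_mem_left _ ha
  · intro φ
    rw [map_zero]
    exact Q.zero_mem
  · intro x y _ _ hx hy φ
    rw [map_add]
    exact Q.add_mem (hx φ) (hy φ)
  · intro x b _ hb φ
    rw [smul_eq_mul]
    induction x using TensorProduct.induction_on with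
    | zero => simp
    | tmul c a =>
      rw [phiA_mul]
      exact Q.mul_mem_left _ (hb _)
    | add x y hx hy =>
      rw [add_mul, map_add]
      exact Q.add_mem hx hy

end funct

section kerstep

variable {k K A : Type} [Field k] [Field K] [Algebra k K] [CommRing A] [Algebra k A]
  [IsLocalRing A]

lemma X_mem {n : ℕ} (i : Fin n) : (X i : Rn n k) ∈ maximalIdeal (Rn n k) := by
  rw [mem_maximalIdeal, mem_nonunits_iff, MvPowerSeries.isUnit_iff_constantCoeff]
  simp

omit [Algebra k A] in
lemma lift_pow (hPOW : POW) {n : ℕ} (m : ℕ) (E : Rn n k →+* A) (hE : Function.Surjective E)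
    (hmax : maximalIdeal A = Ideal.span (Set.range fun i => E (X i)))
    (a : A) (ha : a ∈ maximalIdeal A ^ m) : ∃ q : Rn n k, OrdGe m q ∧ E q = a := by
  have h1 : Ideal.span (Set.range fun i => E (X i)) =
      (Ideal.span (Set.range fun i => (X i : Rn n k))).map E := by
    rw [Ideal.map_span]
    congr 1
    rw [← Set.range_comp]
    rfl
  rw [hmax, h1, ← Ideal.map_pow, Ideal.mem_map_iff_of_surjective E hE] at ha
  obtain ⟨q, hq, hqa⟩ := ha
  refine ⟨q, ?_, hqa⟩
  rw [← hPOW]
  refine Ideal.pow_right_mono ?_ m hq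
  rw [Ideal.span_le]
  rintro _ ⟨i, rfl⟩
  exact X_mem i

lemma ker_step (hPOW : POW) {n r m : ℕ} (E : Rn n k →+* A) (g : Fin r → Rn n k)
    (hE : Function.Surjective E) (hEC : ∀ c, E (C c) = algebraMap k A c)
    (hmax : maximalIdeal A = Ideal.span (Set.range fun i => E (X i)))
    (hker : RingHom.ker E = Ideal.span (Set.range g))
    (S : Finset (Fin n →₀ ℕ)) (lam : (Fin n →₀ ℕ) → K)
    (hb : ∑ α ∈ S, lam α ⊗ₜ[k] E (monomial α 1) ∈
      (maximalIdeal A ^ m).map (Algebra.TensorProduct.includeRight : A →ₐ[k] K ⊗[k] A)) :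
    ∃ w ∈ Ideal.span (Set.range fun j => MvPowerSeries.map (algebraMap k K) (g j)),
      OrdGe m (∑ α ∈ S, monomial α (lam α) - w) := by
  classical
  let bs := Module.Basis.ofVectorSpace k K
  let T := S.biUnion fun α => (bs.repr (lam α)).support
  let p : _ → Rn n k := fun s => ∑ α ∈ S, monomial α (bs.repr (lam α) s)
  have hp : ∀ s, E (p s) ∈ maximalIdeal A ^ m := by
    intro s
    have h1 := phiA_mem _ _ hb (bs.coord s)
    rw [map_sum] at h1
    have h2 : E (p s) = ∑ α ∈ S, phiA (bs.coord s) (lam α ⊗ₜ[k] E (monomial α 1)) := by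
      simp only [p]
      rw [map_sum]
      refine Finset.sum_congr rfl fun α _ => ?_
      rw [phiA_tmul, Algebra.smul_def, ← hEC, ← map_mul]
      congr 1
      rw [← MvPowerSeries.smul_eq_C_mul, ← map_smul, smul_eq_mul, mul_one]
      rfl
    rw [h2]
    exact h1
  choose q hq hqE using fun s => lift_pow hPOW m E hE hmax (E (p s)) (hp s)
  refine ⟨∑ s ∈ T, C (bs s) * MvPowerSeries.map (algebraMap k K) (p s - q s), ?_, ?_⟩
  · refine Ideal.sum_mem _ fun s _ => Ideal.mul_mem_left _ _ ?_
    have h1 : p s - q s ∈ RingHom.ker E := by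
      rw [RingHom.mem_ker, map_sub, hqE, sub_self]
    rw [hker] at h1
    have h2 := Ideal.mem_map_of_mem (MvPowerSeries.map (σ := Fin n) (algebraMap k K)) h1
    rw [Ideal.map_span, ← Set.range_comp] at h2
    exact h2
  · have h3 : ∑ α ∈ S, monomial α (lam α) =
        ∑ s ∈ T, C (bs s) * MvPowerSeries.map (algebraMap k K) (p s) := by
      have h4 : ∀ s, C (bs s) * MvPowerSeries.map (algebraMap k K) (p s) =
          ∑ α ∈ S, monomial (σ := Fin n) α (bs.repr (lam α) s • bs s) := by
        intro s
        simp only [p]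
        rw [map_sum, Finset.mul_sum]
        refine Finset.sum_congr rfl fun α _ => ?_
        rw [MvPowerSeries.map_monomial, ← MvPowerSeries.smul_eq_C_mul, ← map_smul, smul_eq_mul,
          Algebra.smul_def, mul_comm]
      simp only [h4]
      rw [Finset.sum_comm]
      refine Finset.sum_congr rfl fun α hα => ?_
      rw [← map_sum]
      congr 1
      conv_lhs => rw [← bs.linearCombination_repr (lam α)]
      rw [Finsupp.linearCombination_apply, Finsupp.sum_of_support_subset (s := T)]
      · intro s hs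
        exact Finset.mem_biUnion.2 ⟨α, hα, hs⟩
      · intro s _
        simp
    intro β hβ
    rw [h3, ← Finset.sum_sub_distrib, map_sum]
    refine Finset.sum_eq_zero fun s _ => ?_
    rw [← mul_sub, ← map_sub, sub_sub_cancel, ← MvPowerSeries.smul_eq_C_mul, map_smul,
      MvPowerSeries.coeff_map, hq s β hβ, map_zero, smul_zero]

end kerstep

end CMPproof

open CMPproof

theorem t_CMP (hEVAL : EVAL) (hUNIQ : UNIQ) (hSUR : SUR) (hPOW : POW) (hCLO : CLO) : CMP := by
  intro k K A _ _ _ _ _ _ _ n r E g hE hEC hmax hker I hI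
  have hIFG : I.FG := by
    rw [hI]
    have h1 : (maximalIdeal A).FG := IsNoetherian.noetherian (maximalIdeal A)
    exact Ideal.FG.map h1 _
  have hcomp := AdicCompletion.isAdicComplete_self I hIFG
  -- the maps
  let j : K ⊗[k] A →+* AdicCompletion I (K ⊗[k] A) := algebraMap _ _
  have hI1 : I = Ideal.span (Set.range fun i => ((1 : K) ⊗ₜ[k] E (X i))) := by
    rw [hI, hmax, Ideal.map_span, ← Set.range_comp]
    rfl
  have hJ1 : I.map j = Ideal.span (Set.range fun i => j ((1 : K) ⊗ₜ[k] E (X i))) := by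
    have h1 : I.map j = (Ideal.span (Set.range fun i => ((1 : K) ⊗ₜ[k] E (X i)))).map j :=
      congrArg (Ideal.map j) hI1
    rw [h1, Ideal.map_span, ← Set.range_comp]
    rfl
  have hyJ : ∀ i, j ((1 : K) ⊗ₜ[k] E (X i)) ∈ I.map j := by
    intro i
    rw [hJ1]
    exact Ideal.subset_span ⟨i, rfl⟩
  obtain ⟨π, hπC, hπX, hπO⟩ := hEVAL K (AdicCompletion I (K ⊗[k] A)) (I.map j) n
    (j.comp (Algebra.TensorProduct.includeLeftRingHom)) (fun i => j ((1 : K) ⊗ₜ[k] E (X i))) hyJ
  have hπC' : ∀ c : K, π (C c) = j (c ⊗ₜ[k] 1) := fun c => hπC c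
  -- the restriction of `π` to `k[[X]]`
  have hres : ∀ f : Rn n k, π (MvPowerSeries.map (algebraMap k K) f) = j (1 ⊗ₜ[k] E f) := by
    let E1 : Rn n k →+* AdicCompletion I (K ⊗[k] A) := π.comp (MvPowerSeries.map (algebraMap k K))
    let E2 : Rn n k →+* AdicCompletion I (K ⊗[k] A) :=
      (j.comp (Algebra.TensorProduct.includeRight : A →ₐ[k] K ⊗[k] A).toRingHom).comp E
    have hX1 : ∀ i, E1 (X i) = j ((1 : K) ⊗ₜ[k] E (X i)) := by
      intro i
      simp only [E1, RingHom.comp_apply, MvPowerSeries.map_X]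
      exact hπX i
    have h12 : E2 = E1 := by
      refine (hUNIQ k _ (I.map j) n E1 (fun i => ?_)).2 E2 (fun c => ?_) (fun i => ?_)
      · rw [hX1]
        exact hyJ i
      · simp only [E1, RingHom.comp_apply, MvPowerSeries.map_C, hπC']
        change j ((1 : K) ⊗ₜ[k] E (C c)) = _
        have h1 : (1 : K) ⊗ₜ[k] (algebraMap k A c) = (algebraMap k K c) ⊗ₜ[k] (1 : A) := by
          rw [Algebra.algebraMap_eq_smul_one (A := A), Algebra.algebraMap_eq_smul_one (A := K),
            TensorProduct.tmul_smul, ← TensorProduct.smul_tmul']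
        rw [hEC, h1]
      · rw [hX1]
        rfl
    intro f
    exact (RingHom.congr_fun h12 f).symm
  -- the image of the elements of `K ⊗ A`
  have hrange : ∀ b : K ⊗[k] A, ∃ f, π f = j b := by
    intro b
    induction b using TensorProduct.induction_on with
    | zero => exact ⟨0, by rw [map_zero, map_zero]⟩
    | tmul c a =>
      obtain ⟨f, rfl⟩ := hE a
      refine ⟨C c * MvPowerSeries.map (algebraMap k K) f, ?_⟩
      rw [map_mul, hπC', hres, ← map_mul, Algebra.TensorProduct.tmul_mul_tmul, mul_one, one_mul]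
    | add x y hx hy =>
      obtain ⟨f, hf⟩ := hx
      obtain ⟨f', hf'⟩ := hy
      exact ⟨f + f', by rw [map_add, map_add, hf, hf']⟩
  refine ⟨π, ?_, ?_, hπC', hres⟩
  · -- surjectivity
    refine hSUR K _ (I.map j) n π ?_ ?_
    · rw [hJ1]
      congr 1
      congr 1
      funext i
      exact (hπX i).symm
    · intro a
      obtain ⟨b, hb⟩ := Ideal.Quotient.mk_surjective (AdicCompletion.evalOneₐ I a)
      obtain ⟨f, hf⟩ := hrange b
      refine ⟨f, ?_⟩
      rw [hf]
      have h1 := AdicCompletion.ker_evalOneₐ_eq_map I hIFG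
      change a - j b ∈ I.map j
      rw [← h1, RingHom.mem_ker]
      change AdicCompletion.evalOneₐ I (a - algebraMap _ _ b) = 0
      rw [map_sub, AlgHom.commutes, ← hb]
      exact sub_self _
  · -- the kernel
    refine le_antisymm ?_ ?_
    · intro f hf
      rw [RingHom.mem_ker] at hf
      refine hCLO K n _ f fun m => ?_
      classical
      have hfin : {α : Fin n →₀ ℕ | α.degree < m}.Finite := by
        refine (Finsupp.finite_of_degree_le (σ := Fin n) m).subset ?_
        intro α hα
        have hα' : α.degree < m := hα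
        exact hα'.le
      let S := hfin.toFinset
      have hS : ∀ α, α ∈ S ↔ α.degree < m := fun α => by simp [S]
      let f0 : Rn n K := ∑ α ∈ S, monomial α (coeff α f)
      have hf0 : OrdGe m (f - f0) := by
        intro α hα
        simp only [f0]
        rw [map_sub, map_sum, Finset.sum_eq_single α]
        · rw [coeff_monomial_same, sub_self]
        · intro β _ hβ
          exact coeff_monomial_ne hβ.symm _
        · intro h
          exact absurd ((hS α).2 hα) h
      have hb0 : j (∑ α ∈ S, (coeff α f) ⊗ₜ[k] E (monomial α 1)) = π f0 := by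
        simp only [f0]
        rw [map_sum, map_sum]
        refine Finset.sum_congr rfl fun α _ => ?_
        have h1 : monomial α (coeff α f) =
            C (coeff α f) * MvPowerSeries.map (algebraMap k K) (monomial α (1 : k)) := by
          rw [MvPowerSeries.map_monomial, map_one, ← MvPowerSeries.smul_eq_C_mul, ← map_smul,
            smul_eq_mul, mul_one]
        rw [h1, map_mul, hπC', hres, ← map_mul, Algebra.TensorProduct.tmul_mul_tmul, mul_one,
          one_mul]
      have hmem : π f0 ∈ (I.map j) ^ m := by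
        have h1 : π f0 = - π (f - f0) := by
          rw [map_sub, hf, zero_sub, neg_neg]
        rw [h1]
        exact neg_mem (hπO m _ hf0)
      have hb1 : (∑ α ∈ S, (coeff α f) ⊗ₜ[k] E (monomial α 1)) ∈ I ^ m := by
        rw [← hb0, ← Ideal.map_pow] at hmem
        have h2 : (I ^ m).map j ≤ RingHom.ker (AdicCompletion.evalₐ I m).toRingHom := by
          rw [Ideal.map_le_iff_le_comap]
          intro x hx
          rw [Ideal.mem_comap, RingHom.mem_ker]
          change AdicCompletion.evalₐ I m (algebraMap _ _ x) = 0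
          rw [AlgHom.commutes]
          exact Ideal.Quotient.eq_zero_iff_mem.2 hx
        have h3 := h2 hmem
        rw [RingHom.mem_ker] at h3
        change AdicCompletion.evalₐ I m (algebraMap _ _ _) = 0 at h3
        rw [AlgHom.commutes] at h3
        exact Ideal.Quotient.eq_zero_iff_mem.1 h3
      rw [hI, ← Ideal.map_pow] at hb1
      obtain ⟨w, hw, hwO⟩ := ker_step hPOW E g hE hEC hmax hker S (fun α => coeff α f) hb1
      refine ⟨w, hw, fun α hα => ?_⟩
      have h4 := hf0 α hα
      have h5 := hwO α hα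
      rw [map_sub] at h4 h5 ⊢
      rw [sub_eq_zero] at h4 h5 ⊢
      rw [h4]
      exact h5
    · rw [Ideal.span_le]
      rintro _ ⟨i, rfl⟩
      change _ ∈ RingHom.ker π
      rw [RingHom.mem_ker, hres]
      have h1 : E (g i) = 0 := by
        rw [← RingHom.mem_ker, hker]
        exact Ideal.subset_span ⟨i, rfl⟩
      rw [h1, TensorProduct.tmul_zero, map_zero]

end Pool.Agent.T2h14.FD
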